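import Mathlib
import Pool.Agent.W743.GV.Stm

/-! Project GV, part ODE: existence of the functions b and f. -/

set_option autoImplicit false

open Set
open scoped ContDiff

namespace Pool.Agent.W762.GV

open Pool.Agent.W743.GV

noncomputable section

/-- the determinant -/
def DD (z : ℝ × ℝ × ℝ) : ℝ :=
  -36 * z.1 ^ 2 + 4 * z.2.2 * (3 * (z.2.1 + 1) * z.1 - z.2.2 ^ 2)

def N1 (z : ℝ × ℝ × ℝ) : ℝ :=
  6 * z.1 * (z.2.1 + 1) - 2 * z.2.2 * (3 * z.1 + z.2.2)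

def N2 (z : ℝ × ℝ × ℝ) : ℝ :=
  -6 * z.1 * (3 * z.1 + z.2.2) + 2 * (z.2.1 + 1) * (3 * (z.2.1 + 1) * z.1 - z.2.2 ^ 2)

/-- the vector field -/
def vf (z : ℝ × ℝ × ℝ) : ℝ × ℝ × ℝ := (1, N1 z / DD z, N2 z / DD z)

def x0 : ℝ × ℝ × ℝ := (1, 1, 0)

theorem mem_ball' {z : ℝ × ℝ × ℝ} (hz : z ∈ Metric.ball x0 (1 / 10)) :
    |z.1 - 1| < 1 / 10 ∧ |z.2.1 - 1| < 1 / 10 ∧ |z.2.2| < 1 / 10 := by
  rw [Metric.mem_ball, Prod.dist_eq, Prod.dist_eq] at hz
  simp only [x0, max_lt_iff, Real.dist_eq, sub_zero] at hz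
  exact ⟨hz.1, hz.2.1, hz.2.2⟩

theorem DD_neg {z : ℝ × ℝ × ℝ} (hz : z ∈ Metric.ball x0 (1 / 10)) : DD z < 0 := by
  obtain ⟨h1, h2, h3⟩ := mem_ball' hz
  rw [abs_lt] at h1 h2 h3
  unfold DD
  obtain ⟨P, b, f⟩ := z
  simp only at h1 h2 h3 ⊢
  have hP : 81 / 100 ≤ P ^ 2 := by nlinarith
  have hb1 : 0 ≤ (b + 1) * P := by
    apply mul_nonneg <;> linarith
  have hb2 : (b + 1) * P ≤ 3 := by nlinarith
  have hf2 : f ^ 2 ≤ 1 := by nlinarith
  have hf2' : 0 ≤ f ^ 2 := sq_nonneg f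
  have hG1 : 3 * (b + 1) * P - f ^ 2 ≤ 9 := by nlinarith
  have hG2 : -9 ≤ 3 * (b + 1) * P - f ^ 2 := by nlinarith
  set G := 3 * (b + 1) * P - f ^ 2 with hG
  have h4 : 4 * f * G ≤ 4 := by
    have : |f * G| ≤ 1 / 10 * 9 := by
      rw [abs_mul]
      apply mul_le_mul _ _ (abs_nonneg _) (by norm_num)
      · exact (abs_lt.2 ⟨by linarith, by linarith⟩).le
      · exact abs_le.2 ⟨hG2, hG1⟩
    have := le_abs_self (f * G)
    linarith
  linarith

theorem vf_contDiffOn : ContDiffOn ℝ ∞ vf (Metric.ball x0 (1 / 10)) := by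
  have hD : ContDiff ℝ ∞ DD := by unfold DD; fun_prop
  have h1 : ContDiff ℝ ∞ N1 := by unfold N1; fun_prop
  have h2 : ContDiff ℝ ∞ N2 := by unfold N2; fun_prop
  have h0 : ∀ z ∈ Metric.ball x0 (1 / 10), DD z ≠ 0 := fun z hz => (DD_neg hz).ne
  unfold vf
  exact contDiffOn_const.prodMk ((h1.contDiffOn.div hD.contDiffOn h0).prodMk
    (h2.contDiffOn.div hD.contDiffOn h0))

theorem algA (P b f D : ℝ) (hD : D = -36 * P ^ 2 + 4 * f * (3 * (b + 1) * P - f ^ 2))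
    (h0 : D ≠ 0) : 6 * P * ((6 * P * (b + 1) - 2 * f * (3 * P + f)) / D) -
      2 * f * ((-6 * P * (3 * P + f) + 2 * (b + 1) * (3 * (b + 1) * P - f ^ 2)) / D) = -(b + 1) := by
  have h1 : 6 * P * ((6 * P * (b + 1) - 2 * f * (3 * P + f)) / D) -
      2 * f * ((-6 * P * (3 * P + f) + 2 * (b + 1) * (3 * (b + 1) * P - f ^ 2)) / D) =
      (-(b + 1) * D) / D := by
    rw [hD]; ring
  rw [h1, mul_div_assoc, div_self h0, mul_one]

theorem algB (P b f D : ℝ) (hD : D = -36 * P ^ 2 + 4 * f * (3 * (b + 1) * P - f ^ 2))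
    (h0 : D ≠ 0) : 2 * (3 * (b + 1) * P - f ^ 2) * ((6 * P * (b + 1) - 2 * f * (3 * P + f)) / D) -
      6 * P * ((-6 * P * (3 * P + f) + 2 * (b + 1) * (3 * (b + 1) * P - f ^ 2)) / D) =
      -(3 * P + f) := by
  have h1 : 2 * (3 * (b + 1) * P - f ^ 2) * ((6 * P * (b + 1) - 2 * f * (3 * P + f)) / D) -
      6 * P * ((-6 * P * (3 * P + f) + 2 * (b + 1) * (3 * (b + 1) * P - f ^ 2)) / D) =
      (-(3 * P + f) * D) / D := by
    rw [hD]; ring
  rw [h1, mul_div_assoc, div_self h0, mul_one]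

theorem t_ODE : S_ODE := by
  have hat : ContDiffAt ℝ 1 vf x0 :=
    (vf_contDiffOn.contDiffAt (Metric.ball_mem_nhds _ (by norm_num))).of_le (by exact_mod_cast le_top)
  obtain ⟨α, hα1, ε, hε, hα⟩ :=
    hat.exists_forall_mem_closedBall_exists_eq_forall_mem_Ioo_hasDerivAt₀ 1
  have hc : ContinuousAt α 1 := (hα 1 ⟨by linarith, by linarith⟩).continuousAt
  obtain ⟨δ, hδ, hδα⟩ := Metric.continuousAt_iff.1 hc (1 / 10) (by norm_num)
  obtain ⟨d, hd0, hdε, hdδ, hd10⟩ : ∃ d : ℝ, 0 < d ∧ d < ε ∧ d < δ ∧ d ≤ 1 / 10 := by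
    refine ⟨min (min (ε / 2) (δ / 2)) (1 / 10), by positivity, ?_, ?_, min_le_right _ _⟩
    · exact ((min_le_left _ _).trans (min_le_left _ _)).trans_lt (by linarith)
    · exact ((min_le_left _ _).trans (min_le_right _ _)).trans_lt (by linarith)
  have hder : ∀ t ∈ Icc (1 - d) (1 + d), HasDerivAt α (vf (α t)) t := fun t ht =>
    hα t ⟨by linarith [ht.1], by linarith [ht.2]⟩
  have hball : ∀ t ∈ Icc (1 - d) (1 + d), α t ∈ Metric.ball x0 (1 / 10) := by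
    intro t ht
    rw [Metric.mem_ball, ← hα1]
    apply hδα
    rw [Real.dist_eq, abs_lt]
    exact ⟨by linarith [ht.1], by linarith [ht.2]⟩
  have hsm : ContDiffOn ℝ ∞ α (Icc (1 - d) (1 + d)) := by
    have h1 : ContDiffOn ℝ ((⊤ : ℕ∞) : WithTop ℕ∞) (Function.uncurry fun _ : ℝ => vf)
        (Icc (1 - d) (1 + d) ×ˢ Metric.ball x0 (1 / 10)) := by
      have : (Function.uncurry fun _ : ℝ => vf) = vf ∘ Prod.snd := rfl
      rw [this]
      exact vf_contDiffOn.comp contDiff_snd.contDiffOn fun z hz => hz.2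
    exact ODE.contDiffOn_enat_Icc_of_hasDerivWithinAt h1
      (fun t ht => (hder t ht).hasDerivWithinAt) hball
  have hJ : J d ⊆ Icc (1 - d) (1 + d) := Ioo_subset_Icc_self
  have hfst : ∀ t ∈ Icc (1 - d) (1 + d), HasDerivAt (fun t => (α t).1) 1 t := fun t ht =>
    (ContinuousLinearMap.fst ℝ ℝ (ℝ × ℝ)).hasFDerivAt.comp_hasDerivAt t (hder t ht)
  have hb' : ∀ t ∈ Icc (1 - d) (1 + d), HasDerivAt (fun t => (α t).2.1) (N1 (α t) / DD (α t)) t :=
    fun t ht => ((ContinuousLinearMap.fst ℝ ℝ ℝ).comp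
      (ContinuousLinearMap.snd ℝ ℝ (ℝ × ℝ))).hasFDerivAt.comp_hasDerivAt t (hder t ht)
  have hf' : ∀ t ∈ Icc (1 - d) (1 + d), HasDerivAt (fun t => (α t).2.2) (N2 (α t) / DD (α t)) t :=
    fun t ht => ((ContinuousLinearMap.snd ℝ ℝ ℝ).comp
      (ContinuousLinearMap.snd ℝ ℝ (ℝ × ℝ))).hasFDerivAt.comp_hasDerivAt t (hder t ht)
  have hid : ∀ t ∈ J d, (α t).1 = t := by
    intro t ht
    have h1 : ∀ s ∈ J d, HasDerivAt (fun t => (α t).1 - t) 0 s := by
      intro s hs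
      exact ((hfst s (hJ hs)).sub (hasDerivAt_id s)).congr_deriv (by norm_num)
    have h2 : (fun t => (α t).1 - t) t = (fun t => (α t).1 - t) 1 := by
      refine IsOpen.is_const_of_deriv_eq_zero (s := J d) isOpen_Ioo isPreconnected_Ioo
        (fun s hs => (h1 s hs).differentiableAt.differentiableWithinAt)
        (fun s hs => (h1 s hs).deriv) ht ⟨by linarith, by linarith⟩
    simp only [hα1, x0] at h2
    linarith
  refine ⟨d, fun t => (α t).2.1, fun t => (α t).2.2, ?_⟩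
  constructor
  · exact hd0
  · linarith
  · simp only [hα1, x0]
  · simp only [hα1, x0]
  · exact (contDiff_fst.comp contDiff_snd).comp_contDiffOn (hsm.mono hJ)
  · exact (contDiff_snd.comp contDiff_snd).comp_contDiffOn (hsm.mono hJ)
  · intro P hP
    have h0 := (DD_neg (hball P (hJ hP))).ne
    rw [(hb' P (hJ hP)).deriv, (hf' P (hJ hP)).deriv]
    have h1 := hid P hP
    unfold N1 N2
    unfold DD at h0 ⊢
    rw [h1] at h0 ⊢
    exact algA P _ _ _ rfl h0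
  · intro P hP
    have h0 := (DD_neg (hball P (hJ hP))).ne
    rw [(hb' P (hJ hP)).deriv, (hf' P (hJ hP)).deriv]
    have h1 := hid P hP
    unfold N1 N2
    unfold DD at h0 ⊢
    rw [h1] at h0 ⊢
    exact algB P _ _ _ rfl h0
  · intro s hs P hP
    obtain ⟨h1, h2, h3⟩ := mem_ball' (hball P (hJ hP))
    rw [hid P hP] at h1
    rw [abs_lt] at h1 h2 h3
    have hs1 : 9 / 10 < s := by have := hs.1; linarith
    have hs2 : s < 11 / 10 := by have := hs.2; linarith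
    unfold MM
    simp only
    set b := (α P).2.1
    set f := (α P).2.2
    have e1 : (b - s) ^ 2 ≤ 1 / 25 := by nlinarith
    have e2 : (f - (b - s)) ^ 2 ≤ 9 / 100 := by nlinarith
    have e3 : 2 ≤ 3 * P - (b - s) ^ 2 := by linarith
    nlinarith

end

end Pool.Agent.W762.GV
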